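import Pool.Agent.N496.LT.L2

/-!
# Torsion growth and `L²`-torsion of closed aspherical manifolds from flag spheres
-/

set_option autoImplicit false

namespace Pool.Agent.Results.MP_98dedd_gt.TorsionOfFlagSpheres

open Filter Topology Pool.Agent.N496.LT.Lt
open Pool.Agent.N496.LT (c1 c2 c3 e1 e2 p1 p2g p3A p3T p4B p4R p4A p5A p5B build mainG3)

/-- Let `H` be a flag triangulation of the sphere of dimension `2 d` (`d ≥ 1`), given by its graph, let `p` be an odd
prime and let `Z` be a doubled `d`-cycle modulo `p` in `H`, such that the full subcomplex of `H` which is spanned by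
the vertices of `Z` is properly coloured by `d + 1` colours. Then there is a flag triangulation `S` of the sphere of
dimension `2 d`, obtained from `H` by finitely many edge subdivisions, with the following properties. Let `Γ` be the
commutator subgroup of the right-angled Coxeter group of `S`, the kernel of the map to `(ℤ/2)^n`, and let `M` be the
quotient of the Davis complex by `Γ`. Then `Γ` is residually finite, `M` and `M × M × M` are det-`L²`-acyclic, and the
`L²`-torsion of `M × M × M` is zero. For every residual chain `K i` of normal subgroups of finite index of `Γ` and for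
every positive real number `c < 2 ^ n / 2 ^ |U|` the logarithm of the order of the torsion subgroup of the integral
homology group of the covering of `M × M × M` with the group `K i × K i × K i`, in the middle degree `k = 3 d + 1`, is
eventually at least `c ^ 3 * log p` times the index; in particular it does not converge to `(-1) ^ k` times the
`L²`-torsion after normalization. -/
theorem result (d N : ℕ) (hd : 1 ≤ d) (H : SimpleGraph (Fin N)) (hH : Sph d H) (p : ℕ) [Fact p.Prime] (hp : p ≠ 2)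
    (Z : Dbl (ZMod p) H d) (κ : Fin Z.n → Fin (d + 1)) (hκ : ∀ v w a b, H.Adj (Z.j v a) (Z.j w b) → κ v ≠ κ w) :
    ∃ (n : ℕ) (S : SimpleGraph (Fin n)), Sub H S ∧ Sph d S ∧ ResFin (Gam S) ∧ (davis S).toFree.DetL2Acyclic ∧
    (davis S).cube.toFree.DetL2Acyclic ∧ (davis S).cube.toFree.l2torsion = 0 ∧
    ∀ (K : ℕ → Subgroup (Gam S)) [∀ i, (K i).Normal], (∀ i, (K i).FiniteIndex) → Antitone K → ⨅ i, K i = ⊥ →
      (∀ c : ℝ, 0 < c → c < 2 ^ n / 2 ^ Z.U.card → ∀ᶠ i in atTop, c ^ 3 * Real.log p ≤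
        (davis S).rate3 (K i) (3 * d + 1)) ∧
      ¬ Tendsto (fun i => (-1) ^ (3 * d + 1) * (davis S).rate3 (K i) (3 * d + 1)) atTop
        (𝓝 (davis S).cube.toFree.l2torsion) := by
  obtain ⟨f, hf, hf1, hfi⟩ := hH.emb
  obtain ⟨n, S, A, κ', Z', h1, h2, h3, h4, h5, h6, h7⟩ :=
    build (c2 c1) c3 e1 e2 H hd hH.hom f hf hf1 hfi Z.to κ hκ
  obtain ⟨g1, g2, g3, g4, g5⟩ := mainG3 p1 p2g p3A p3T p4B p4R (p4A p4R) p5A p5B h3 κ' h4 h5 p hp Z' h6
  rw [h7, Fintype.card_fin] at g5
  obtain ⟨g, k1, k2, k3⟩ := h1.real e2 f hf hfi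
  refine ⟨n, S, sub_of h1, ⟨h2, g, k1, fun x hx => ?_, k2⟩, g1, g2, g3, g4, ?_⟩
  · obtain ⟨y, hy, e⟩ := k3 x hx
    rw [e]
    exact hf1 y hy
  · intro K iN hK1 hK2 hK3
    have g6 : ∀ c : ℝ, 0 < c → c < 2 ^ n / 2 ^ Z.U.card → ∀ᶠ i in atTop, c ^ 3 * Real.log p ≤
        (davis S).rate3 (K i) (3 * d + 1) := by
      intro c hc0 hc1
      filter_upwards [@g5 K iN hK1 hK2 hK3 c hc0 hc1] with i hi
      unfold BCx.rate3
      rw [BCx.tors_eq]
      exact hi
    refine ⟨g6, ?_⟩
    intro ht
    have g4' : (davis S).cube.toFree.l2torsion = 0 := g4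
    rw [g4'] at ht
    have hlog : 0 < Real.log p := Real.log_pos (by exact_mod_cast (Fact.out : p.Prime).one_lt)
    obtain ⟨c, hc⟩ : ∃ c : ℝ, c = 2 ^ n / 2 ^ Z.U.card / 2 := ⟨_, rfl⟩
    have hc1 : (0 : ℝ) < 2 ^ n / 2 ^ Z.U.card := by positivity
    have hc0 : 0 < c := by rw [hc]; positivity
    have h8 := g6 c hc0 (by rw [hc]; linarith)
    have h9 : ∀ᶠ x : ℝ in 𝓝 0, |x| < c ^ 3 * Real.log p := by
      have : (0 : ℝ) < c ^ 3 * Real.log p := by positivity
      filter_upwards [Metric.ball_mem_nhds (0 : ℝ) this] with x hx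
      simpa [Real.dist_eq] using hx
    obtain ⟨i, hi1, hi2⟩ := (h8.and (ht.eventually h9)).exists
    rw [abs_mul, abs_pow, abs_neg, abs_one, one_pow, one_mul] at hi2
    exact absurd (hi1.trans (le_abs_self _)) (not_le.2 hi2)

end Pool.Agent.Results.MP_98dedd_gt.TorsionOfFlagSpheres
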